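import Mathlib

set_option autoImplicit false

namespace Pool.Agent.H3F0

open Set Cardinal Function MeasureTheory

theorem sel {X J : Type} (F : J → Set X) (R : J → X → J → X → Prop) (h : ∀ j, #J ≤ #(F j))
    (h0 : ∀ j, ℵ₀ < #(F j)) (hs : ∀ j x k y, R j x k y → R k y j x)
    (hR : ∀ j k y, {x ∈ F j | R j x k y}.Countable) :
    ∃ g : J → X, (∀ j, g j ∈ F j) ∧ ∀ j k, j ≠ k → ¬R j (g j) k (g k) := by
  obtain ⟨_, _, hr⟩ := exists_ord_eq_type_lt J
  have : ∀ (j : J) (g : (k : J) → k < j → X), ∃ x ∈ F j, ∀ k h, ¬R j x k (g k h) := fun j g => by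
    by_contra! k
    have : F j ⊆ ⋃ k : Iio j, {x ∈ F j | R j x k (g k.1 k.2)} := fun x hx =>
      (k x hx).elim fun a ⟨b, c⟩ => mem_iUnion.2 ⟨⟨a, b⟩, hx, c⟩
    refine ((mk_le_mk_of_subset this).trans ((mk_iUnion_le _).trans (mul_le_mul_right
      (ciSup_le' fun k => le_aleph0_iff_set_countable.2 (hR _ _ _)) _))).not_gt ?_
    exact mul_lt_of_lt (h0 j).le ((mk_Iio_lt j hr).trans_le (h j)) (h0 j)
  choose G h1 h2 using this
  have e : ∀ j, wellFounded_lt.fix G j = G j fun k _ => wellFounded_lt.fix G k :=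
    wellFounded_lt.fix_eq G
  have k : ∀ j k, k < j → ¬R j (wellFounded_lt.fix G j) k (wellFounded_lt.fix G k) :=
    fun j k h => e j ▸ h2 j (fun k _ => wellFounded_lt.fix G k) k h
  exact ⟨wellFounded_lt.fix G, fun j => e j ▸ h1 j _, fun j l h =>
    h.lt_or_gt.elim (fun h => mt (hs _ _ _ _) (k _ _ h)) (k _ _)⟩

/-- the functions which could be extensions of forbidden embeddings -/
def Ok (F : ℝ → ℝ) (u v : ℝ) : Prop :=
  Monotone F ∧ u < v ∧ InjOn F (Ioo u v) ∧ ∃ c d, d - c < v - u ∧ MapsTo F (Ioo u v) (Icc c d)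

abbrev J : Type := {j : (ℝ → ℝ) × ℝ × ℝ // Ok j.1 j.2.1 j.2.2}

theorem card_mono : #{F : ℝ → ℝ // Monotone F} ≤ 𝔠 := by
  have a : #{s : Set ℝ | MeasurableSet s} ≤ 𝔠 := by
    rw [BorelSpace.measurable_eq (α := ℝ), Real.borel_eq_generateFrom_Iio_rat]
    exact MeasurableSpace.cardinal_measurableSet_le_continuum ((le_aleph0_iff_set_countable.2
      (countable_iUnion fun _ => countable_singleton _)).trans aleph0_le_continuum)
  refine (mk_le_of_injective (f := fun (F : {F : ℝ → ℝ // Monotone F}) (q : ℚ) =>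
    (⟨F.1 ⁻¹' Iio q, F.2.measurable measurableSet_Iio⟩ : {s : Set ℝ | MeasurableSet s}))
    fun F G h => ?_).trans ?_
  · ext x
    refine eq_of_forall_lt_rat_iff_lt fun q => ?_
    simpa using Set.ext_iff.1 (congrArg Subtype.val (congrFun h q)) x
  · rw [← power_def, mk_denumerable ℚ, ← continuum_power_aleph0]
    exact power_le_power_right a

theorem card_J : #J ≤ 𝔠 := by
  have h : #J ≤ #({F : ℝ → ℝ // Monotone F} × ℝ × ℝ) :=
    mk_le_of_injective (f := fun j : J => ((⟨j.1.1, j.2.1⟩ : {F : ℝ → ℝ // Monotone F}), j.1.2))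
      fun j k e => by
        have e1 := congrArg (fun p => p.1.1) e
        have e2 := congrArg Prod.snd e
        exact Subtype.ext (Prod.ext e1 e2)
  refine h.trans ?_
  rw [mk_prod, mk_prod, lift_id, lift_id, mk_real, lift_continuum, continuum_mul_self]
  exact (mul_le_mul_left card_mono _).trans continuum_mul_self.le

theorem cnt {F : ℝ → ℝ} {u v : ℝ} (h : Ok F u v) (y : ℝ) :
    {x ∈ Ioo u v | ∃ q : ℚ, F x = y + q}.Countable :=
  countable_of_injective_of_countable_image (h.2.2.1.mono fun _ => And.left)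
    ((countable_range fun q : ℚ => y + q).mono (by
      rintro _ ⟨_, ⟨_, q, e⟩, rfl⟩
      exact ⟨q, e.symm⟩))

def D (F : ℝ → ℝ) (u v : ℝ) : Set ℝ := {x ∈ Ioo u v | ∀ q : ℚ, F x ≠ x + q ∧ F x ≠ q}

theorem card_D {F : ℝ → ℝ} {u v : ℝ} (h : Ok F u v) : #(D F u v) = 𝔠 := by
  have m := h.1.measurable
  have a : MeasurableSet (D F u v) := by
    unfold D
    measurability
  have nc : ¬Countable (D F u v) := fun b => by
    obtain ⟨c, d, h1, h2⟩ := h.2.2.2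
    let C : ℚ → Set ℝ := fun q => {x | x - q ∈ Ioo u v ∧ F (x - q) = x}
    have c0 : ∀ q, MeasurableSet (C q) := fun q => by
      unfold C
      measurability
    have c1 : volume (Ioo u v) ≤ volume (⋃ q : ℚ, (· + (q : ℝ)) ⁻¹' C q) := by
      refine le_trans (measure_mono fun x hx => ?_) ((measure_union_le _ _).trans_eq
        ((congrArg _ (((countable_coe_iff.1 b).union (cnt h 0)).measure_zero volume)).trans
          (add_zero _)))
      by_contra! k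
      simp only [mem_union, not_or, D, C, mem_iUnion, mem_ofPred_eq, mem_preimage, hx, true_and,
        add_sub_cancel_right, zero_add, not_exists] at k
      exact k.2.1 fun q => ⟨k.1 q, k.2.2 q⟩
    have c2 : volume (⋃ q, C q) ≤ volume (Icc c d) :=
      measure_mono (iUnion_subset fun q x hx => hx.2 ▸ h2 hx.1)
    rw [measure_iUnion (fun p q e => disjoint_left.2 fun x a b => e ?_) c0] at c2
    · replace c1 := c1.trans (measure_iUnion_le _)
      simp only [measure_preimage_add_right] at c1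
      have := c1.trans c2
      rw [Real.volume_Ioo, Real.volume_Icc, ENNReal.ofReal_le_ofReal_iff'] at this
      rcases this with h' | h' <;> linarith [h.2.1]
    · exact_mod_cast sub_right_injective (h.2.2.1 a.1 b.1 (a.2.trans b.2.symm))
  have := a.standardBorel
  exact (PolishSpace.measurableEquivOfNotCountable nc not_countable).toEquiv.cardinal_eq.trans
    mk_real

theorem exE : ∃ E : Set ℝ, (∀ q : ℚ, (q : ℝ) ∈ E) ∧ (∀ x ∈ E, ∀ q : ℚ, x + q ∈ E) ∧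
    #(E ∩ Icc 0 1 : Set ℝ) = 𝔠 ∧
    ∀ F u v, Ok F u v → ∃ x ∈ E ∩ Ioo u v, F x ∉ E := by
  obtain ⟨g, h1, h2⟩ := sel (fun j : J => D j.1.1 j.1.2.1 j.1.2.2)
    (fun j x k y => ((∃ q : ℚ, j.1.1 x = y + q) ∨ ∃ q : ℚ, k.1.1 y = x + q) ∨ x = y)
    (fun j => card_J.trans (card_D j.2).ge)
    (fun j => aleph0_lt_continuum.trans_eq (card_D j.2).symm)
    (fun _ _ _ _ h => h.elim (fun h => Or.inl h.symm) fun h => Or.inr h.symm)
    fun j k y => (((cnt j.2 y).union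
      (countable_range fun q : ℚ => k.1.1 y - q)).union (countable_singleton y)).mono
        fun x ⟨a, b⟩ => b.elim (fun b => Or.inl (b.imp (fun b => ⟨a.1, b⟩)
          fun ⟨q, e⟩ => ⟨q, sub_eq_iff_eq_add.2 e⟩)) Or.inr
  refine ⟨{x | ∃ q : ℚ, x = q ∨ ∃ j, x = g j + q}, fun q => ⟨q, Or.inl rfl⟩, ?_, ?_,
    fun F u v hF => ⟨g ⟨(F, u, v), hF⟩, ⟨⟨0, Or.inr ⟨⟨(F, u, v), hF⟩, by simp⟩⟩,
      (h1 ⟨(F, u, v), hF⟩).1⟩, ?_⟩⟩
  · rintro x ⟨p, rfl | ⟨F, rfl⟩⟩ q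
    exacts [⟨p + q, Or.inl (by simp)⟩, ⟨p + q, Or.inr ⟨F, by simp [add_assoc]⟩⟩]
  · refine le_antisymm ((mk_set_le _).trans mk_real.le) ?_
    have key : ∀ u : Ioo (0 : ℝ) 1, Ok (fun x => x / 2) u 1 := fun u =>
      ⟨fun x y h => by simpa using (div_le_div_iff_of_pos_right two_pos).2 h, u.2.2,
        fun x _ y _ h => by simpa using h, u / 2, 1 / 2, by linarith [u.2.2],
        fun x hx => ⟨by simpa using (div_le_div_iff_of_pos_right two_pos).2 hx.1.le,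
          by simpa using (div_le_div_iff_of_pos_right two_pos).2 hx.2.le⟩⟩
    rw [← mk_Ioo_real (zero_lt_one : (0 : ℝ) < 1)]
    refine mk_le_of_injective (f := fun u : Ioo (0 : ℝ) 1 =>
      (⟨g ⟨(_, _, _), key u⟩, ⟨0, Or.inr ⟨_, by simp; rfl⟩⟩, ?_⟩ :
        ({x | ∃ q : ℚ, x = q ∨ ∃ j, x = g j + q} ∩ Icc 0 1 : Set ℝ))) fun u u' e => ?_
    · have := (h1 ⟨(_, _, _), key u⟩).1
      exact ⟨u.2.1.le.trans this.1.le, this.2.le⟩
    · by_contra hne
      refine h2 ⟨(_, _, _), key u⟩ ⟨(_, _, _), key u'⟩ (fun h => hne ?_)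
        (Or.inr (congrArg Subtype.val e))
      exact Subtype.ext (congrArg (fun j : J => j.1.2.1) h)
  · rintro ⟨q, e | ⟨G, e⟩⟩
    · exact ((h1 ⟨(F, u, v), hF⟩).2 q).2 e
    · rcases eq_or_ne ⟨(F, u, v), hF⟩ G with rfl | k
      exacts [((h1 ⟨(F, u, v), hF⟩).2 q).1 e, h2 _ _ k (Or.inl (Or.inl ⟨q, e⟩))]

/-- There is a set of reals containing the rationals, closed under rational translations, no
interval of which can be embedded into a shorter interval. -/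
theorem exE' : ∃ E : Set ℝ, (∀ q : ℚ, (q : ℝ) ∈ E) ∧ (∀ x ∈ E, ∀ q : ℚ, x + q ∈ E) ∧
    #(E ∩ Icc 0 1 : Set ℝ) = 𝔠 ∧
    ∀ (f : ℝ → ℝ) (u v c d : ℝ), u < v → d - c < v - u → StrictMonoOn f (E ∩ Ioo u v) →
      ¬MapsTo f (E ∩ Ioo u v) (E ∩ Icc c d) := by
  obtain ⟨E, h1, h2, h4, h3⟩ := exE
  refine ⟨E, h1, h2, h4, fun f u v c d huv a b m => ?_⟩
  obtain ⟨F, a1, a2⟩ := b.monotoneOn.exists_monotone_extension
    ⟨c, by rintro _ ⟨x, hx, rfl⟩; exact (m hx).2.1⟩ ⟨d, by rintro _ ⟨x, hx, rfl⟩; exact (m hx).2.2⟩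
  have k : ∀ {x y : ℝ}, u ≤ x → x < y → y ≤ v → ∃ z ∈ E ∩ Ioo u v, x < z ∧ z < y :=
    fun a b c => (exists_rat_btwn b).elim fun q ⟨d, e⟩ =>
      ⟨q, ⟨h1 q, a.trans_lt d, e.trans_le c⟩, d, e⟩
  refine (h3 F u v ⟨a1, huv, StrictMonoOn.injOn fun x hx y hy h => ?_, c, d, a,
    fun x hx => ?_⟩).elim fun x ⟨hx, e⟩ => e (a2 hx ▸ (m hx).1)
  · obtain ⟨z, z1, z2, z3⟩ := k hx.1.le h hy.2.le
    obtain ⟨w, w1, w2, w3⟩ := k z1.2.1.le z3 hy.2.le
    exact (a1 z2.le).trans_lt ((a2 z1 ▸ a2 w1 ▸ b z1 w1 w2).trans_le (a1 w3.le))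
  · obtain ⟨z, z1, -, z3⟩ := k le_rfl hx.1 hx.2.le
    obtain ⟨w, w1, w2, -⟩ := k hx.1.le hx.2 le_rfl
    exact ⟨(a2 z1 ▸ (m z1).2.1).trans (a1 z3.le), (a1 w2.le).trans (a2 w1 ▸ (m w1).2.2)⟩

end Pool.Agent.H3F0
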