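import Pool.Agent.H3F0.A

set_option autoImplicit false

namespace Pool.Agent.H3F0

open Set Cardinal Function

theorem emb {X : Type*} [LinearOrder X] {s : Set ℝ} (h : s.Nonempty) :
    Nonempty (s ↪o X) ↔ ∃ f : ℝ → X, StrictMonoOn f s := by
  classical
  refine ⟨fun ⟨e⟩ => ⟨fun x => if h' : x ∈ s then e ⟨x, h'⟩ else e ⟨_, h.some_mem⟩,
    fun x hx y hy l => ?_⟩, fun ⟨f, hf⟩ => ⟨.ofStrictMono _ hf.domRestrict⟩⟩
  simpa [hx, hy] using l

section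

variable {E : Set ℝ} (h1 : ∀ q : ℚ, (q : ℝ) ∈ E) (h2 : ∀ x ∈ E, ∀ q : ℚ, x + q ∈ E)

/-- Finitely many points can be avoided at arbitrarily small cost (shifting up). -/
lemma avoidUp (h2 : ∀ x ∈ E, ∀ q : ℚ, x + q ∈ E) (P : Finset ℝ) : ∀ r t : ℝ, r < t →
    ∃ φ : ℝ → ℝ, StrictMonoOn φ (E ∩ Icc 0 r) ∧ MapsTo φ (E ∩ Icc 0 r) ((E ∩ Icc 0 t) \ P) := by
  induction P using Finset.induction_on_max with
  | empty =>
    intro r t hrt
    exact ⟨id, fun _ _ _ _ h => h, fun x hx => ⟨⟨hx.1, hx.2.1, hx.2.2.trans hrt.le⟩, by simp⟩⟩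
  | insert p P hp ih =>
    intro r t hrt
    obtain ⟨φ, hφ, hm⟩ := ih r ((r + t) / 2) (by linarith)
    obtain ⟨c, hc0, hc⟩ := exists_rat_btwn (show (0 : ℝ) < (t - r) / 2 by linarith)
    refine ⟨fun x => if φ x < p then φ x else φ x + c, fun x hx y hy hxy => ?_, fun x hx => ?_⟩
    · have := hφ hx hy hxy
      simp only
      split_ifs <;> linarith
    · obtain ⟨⟨m1, m2, m3⟩, m4⟩ := hm hx
      simp only
      split_ifs with h
      · refine ⟨⟨m1, m2, by linarith⟩, ?_⟩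
        simp only [Finset.coe_insert, mem_insert_iff, not_or]
        exact ⟨h.ne, m4⟩
      · refine ⟨⟨h2 _ m1 c, by linarith, by linarith⟩, ?_⟩
        simp only [Finset.coe_insert, mem_insert_iff, not_or, not_lt] at h ⊢
        refine ⟨by intro hh; linarith, fun hh => ?_⟩
        have := hp _ (Finset.mem_coe.1 hh)
        linarith

/-- Finitely many points can be avoided at arbitrarily small cost (shifting down). -/
lemma avoidDown (h2 : ∀ x ∈ E, ∀ q : ℚ, x + q ∈ E) (P : Finset ℝ) : ∀ r s : ℝ, s < r →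
    ∃ φ : ℝ → ℝ, StrictMonoOn φ (E ∩ Ioc r 1) ∧ MapsTo φ (E ∩ Ioc r 1) ((E ∩ Ioc s 1) \ P) := by
  induction P using Finset.induction_on_min with
  | empty =>
    intro r s hrs
    exact ⟨id, fun _ _ _ _ h => h, fun x hx => ⟨⟨hx.1, hrs.trans hx.2.1, hx.2.2⟩, by simp⟩⟩
  | insert p P hp ih =>
    intro r s hrs
    obtain ⟨φ, hφ, hm⟩ := ih r ((r + s) / 2) (by linarith)
    obtain ⟨c, hc0, hc⟩ := exists_rat_btwn (show (0 : ℝ) < (r - s) / 2 by linarith)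
    refine ⟨fun x => if p < φ x then φ x else φ x - c, fun x hx y hy hxy => ?_, fun x hx => ?_⟩
    · have := hφ hx hy hxy
      simp only
      split_ifs <;> linarith
    · obtain ⟨⟨m1, m2, m3⟩, m4⟩ := hm hx
      simp only
      split_ifs with h
      · refine ⟨⟨m1, by linarith, by linarith⟩, ?_⟩
        simp only [Finset.coe_insert, mem_insert_iff, not_or]
        exact ⟨h.ne', m4⟩
      · have e : φ x - c = φ x + ((-c : ℚ) : ℝ) := by push_cast; ring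
        refine ⟨⟨e ▸ h2 _ m1 (-c), by linarith, by linarith⟩, ?_⟩
        simp only [Finset.coe_insert, mem_insert_iff, not_or, not_lt] at h ⊢
        refine ⟨by intro hh; linarith, fun hh => ?_⟩
        have := hp _ (Finset.mem_coe.1 hh)
        linarith

/-- If there is room for more than one unit, the whole interval embeds. -/
lemma slack (h2 : ∀ x ∈ E, ∀ q : ℚ, x + q ∈ E) {X : Type*} [LinearOrder X] {P Q : Finset ℝ}
    {a b : ℝ → X} (ha : StrictMonoOn a ((E ∩ Icc 0 1) \ P))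
    (hb : StrictMonoOn b ((E ∩ Icc 0 1) \ Q)) {s t : ℝ} (hst : s < t)
    (hs : s ∈ (E ∩ Icc 0 1) \ Q) (ht : t ∈ (E ∩ Icc 0 1) \ P) (hab : a t ≤ b s) :
    ∃ g : ℝ → X, StrictMonoOn g (E ∩ Icc 0 1) := by
  obtain ⟨φ, f1, f2⟩ := avoidUp h2 P ((s + t) / 2) t (by linarith)
  obtain ⟨ψ, g1, g2⟩ := avoidDown h2 Q ((s + t) / 2) s (by linarith)
  have a2 : ∀ x ∈ E ∩ Icc 0 1, x ≤ (s + t) / 2 → φ x ∈ (E ∩ Icc 0 1) \ P ∧ φ x ≤ t :=
    fun x hx h => by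
      have := f2 (show x ∈ E ∩ Icc 0 ((s + t) / 2) from ⟨hx.1, hx.2.1, h⟩)
      exact ⟨⟨⟨this.1.1, this.1.2.1, this.1.2.2.trans ht.1.2.2⟩, this.2⟩, this.1.2.2⟩
  have b2 : ∀ x ∈ E ∩ Icc 0 1, (s + t) / 2 < x → ψ x ∈ (E ∩ Icc 0 1) \ Q ∧ s < ψ x :=
    fun x hx h => by
      have := g2 (show x ∈ E ∩ Ioc ((s + t) / 2) 1 from ⟨hx.1, h, hx.2.2⟩)
      exact ⟨⟨⟨this.1.1, hs.1.2.1.trans this.1.2.1.le, this.1.2.2⟩, this.2⟩, this.1.2.1⟩
  refine ⟨fun x => if x ≤ (s + t) / 2 then a (φ x) else b (ψ x), fun x hx y hy hxy => ?_⟩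
  simp only
  split_ifs with u v v
  · exact ha (a2 x hx u).1 (a2 y hy v).1 (f1 ⟨hx.1, hx.2.1, u⟩ ⟨hy.1, hy.2.1, v⟩ hxy)
  · exact (ha.le_iff_le (a2 x hx u).1 ht |>.2 (a2 x hx u).2).trans_lt (hab.trans_lt
      (hb hs (b2 y hy (not_le.1 v)).1 (b2 y hy (not_le.1 v)).2))
  · exact absurd (hxy.le.trans v) u
  · exact hb (b2 x hx (not_le.1 u)).1 (b2 y hy (not_le.1 v)).1
      (g1 ⟨hx.1, not_le.1 u, hx.2.2⟩ ⟨hy.1, not_le.1 v, hy.2.2⟩ hxy)

/-- Two punctured intervals have the intersection of the punctures as their supremum. -/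
lemma sup_aux (h2 : ∀ x ∈ E, ∀ q : ℚ, x + q ∈ E) {X : Type*} [LinearOrder X] {P Q : Finset ℝ}
    {a b : ℝ → X} (ha : StrictMonoOn a ((E ∩ Icc 0 1) \ P))
    (hb : StrictMonoOn b ((E ∩ Icc 0 1) \ Q)) :
    ∃ g : ℝ → X, StrictMonoOn g ((E ∩ Icc 0 1) \ (P ∩ Q : Set ℝ)) := by
  classical
  by_cases k1 : ∃ s t : ℝ, s < t ∧ s ∈ (E ∩ Icc 0 1) \ Q ∧ t ∈ (E ∩ Icc 0 1) \ P ∧ a t ≤ b s
  · obtain ⟨s, t, c1, c2, c3, c4⟩ := k1
    obtain ⟨g, hg⟩ := slack h2 ha hb c1 c2 c3 c4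
    exact ⟨g, hg.mono sdiff_subset⟩
  by_cases k2 : ∃ s t : ℝ, s < t ∧ s ∈ (E ∩ Icc 0 1) \ P ∧ t ∈ (E ∩ Icc 0 1) \ Q ∧ b t ≤ a s
  · obtain ⟨s, t, c1, c2, c3, c4⟩ := k2
    obtain ⟨g, hg⟩ := slack h2 hb ha c1 c2 c3 c4
    exact ⟨g, hg.mono sdiff_subset⟩
  push Not at k1 k2
  refine ⟨fun x => if x ∈ P then b x else a x, fun x hx y hy hxy => ?_⟩
  have q : ∀ z ∈ (E ∩ Icc 0 1) \ (P ∩ Q : Set ℝ), z ∈ P → z ∈ (E ∩ Icc 0 1) \ (Q : Set ℝ) :=
    fun z hz h => ⟨hz.1, fun h' => hz.2 ⟨h, h'⟩⟩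
  simp only
  split_ifs with u v v
  · exact hb (q x hx u) (q y hy v) hxy
  · exact k1 x y hxy (q x hx u) ⟨hy.1, v⟩
  · exact k2 x y hxy ⟨hx.1, u⟩ (q y hy v)
  · exact ha ⟨hx.1, u⟩ ⟨hy.1, v⟩ hxy

/-- Rigidity: an embedding of a punctured interval into the interval is the identity. -/
lemma rigid
    (h3 : ∀ (f : ℝ → ℝ) (u v c d : ℝ), u < v → d - c < v - u → StrictMonoOn f (E ∩ Ioo u v) →
      ¬MapsTo f (E ∩ Ioo u v) (E ∩ Icc c d)) {P : Finset ℝ} {f : ℝ → ℝ}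
    (hf : StrictMonoOn f ((E ∩ Icc 0 1) \ P))
    (hm : MapsTo f ((E ∩ Icc 0 1) \ P) (E ∩ Icc 0 1)) :
    ∀ x ∈ (E ∩ Icc 0 1) \ (P : Set ℝ), f x = x := by
  obtain ⟨F0, a1, a2⟩ := hf.monotoneOn.exists_monotone_extension
    ⟨0, by rintro _ ⟨x, hx, rfl⟩; exact (hm hx).2.1⟩
    ⟨1, by rintro _ ⟨x, hx, rfl⟩; exact (hm hx).2.2⟩
  set F : ℝ → ℝ := fun x => max 0 (min 1 (F0 x)) with hF
  have hmono : Monotone F := fun x y h => max_le_max le_rfl (min_le_min le_rfl (a1 h))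
  have hFf : ∀ x ∈ (E ∩ Icc 0 1) \ (P : Set ℝ), F x = f x := fun x hx => by
    simp only [hF]
    rw [← a2 hx, min_eq_right (hm hx).2.2, max_eq_right (hm hx).2.1]
  have key : ∀ n : ℕ, ∀ u v : ℝ, 0 ≤ u → v ≤ 1 → u ≤ v → (P.filter (· ∈ Ioo u v)).card = n →
      v - u ≤ F v - F u := by
    intro n
    induction n using Nat.strong_induction_on with
    | _ n ih =>
      intro u v hu hv huv hn
      rcases huv.eq_or_lt with rfl | huv
      · simp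
      by_cases hP : ∃ p ∈ P, p ∈ Ioo u v
      · obtain ⟨p, hp, hpu, hpv⟩ := hP
        have s1 : P.filter (· ∈ Ioo u p) ⊂ P.filter (· ∈ Ioo u v) := by
          refine (Finset.ssubset_iff_of_subset fun z hz => ?_).2
            ⟨p, Finset.mem_filter.2 ⟨hp, hpu, hpv⟩, fun h => (Finset.mem_filter.1 h).2.2.false⟩
          obtain ⟨z1, z2, z3⟩ := Finset.mem_filter.1 hz
          exact Finset.mem_filter.2 ⟨z1, z2, z3.trans hpv⟩
        have s2 : P.filter (· ∈ Ioo p v) ⊂ P.filter (· ∈ Ioo u v) := by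
          refine (Finset.ssubset_iff_of_subset fun z hz => ?_).2
            ⟨p, Finset.mem_filter.2 ⟨hp, hpu, hpv⟩, fun h => (Finset.mem_filter.1 h).2.1.false⟩
          obtain ⟨z1, z2, z3⟩ := Finset.mem_filter.1 hz
          exact Finset.mem_filter.2 ⟨z1, hpu.trans z2, z3⟩
        have t1 := ih _ (hn ▸ Finset.card_lt_card s1) u p hu (hpv.le.trans hv) hpu.le rfl
        have t2 := ih _ (hn ▸ Finset.card_lt_card s2) p v (hu.trans hpu.le) hv hpv.le rfl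
        linarith
      · push Not at hP
        by_contra! hlt
        have hsub : ∀ x ∈ E ∩ Ioo u v, x ∈ (E ∩ Icc 0 1) \ (P : Set ℝ) := fun x hx =>
          ⟨⟨hx.1, hu.trans hx.2.1.le, hx.2.2.le.trans hv⟩, fun h => hP x h hx.2⟩
        refine h3 f u v (F u) (F v) huv hlt (hf.mono hsub) fun x hx => ?_
        rw [← hFf x (hsub x hx)]
        refine ⟨?_, hmono hx.2.1.le, hmono hx.2.2.le⟩
        rw [hFf x (hsub x hx)]
        exact (hm (hsub x hx)).1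
  intro x hx
  have k1 := key _ 0 x le_rfl hx.1.2.2 hx.1.2.1 rfl
  have k2 := key _ x 1 hx.1.2.1 le_rfl hx.1.2.2 rfl
  have k3 : 0 ≤ F 0 := le_max_left _ _
  have k4 : F 1 ≤ 1 := max_le zero_le_one (min_le_left _ _)
  rw [← hFf x hx]
  linarith

end

end Pool.Agent.H3F0
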